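import Pool.Agent.CZS.Two

/-!
# The finitely based Rees matrix semigroups with zero over finite abelian groups

The definitions are in `Pool.Agent.CZS.Defs` (words, identities, finite basis, Rees matrix
semigroups, the criterion).
-/

set_option autoImplicit false

namespace Pool.Agent.Results.MP_370e98_al.Criterion

open Pool.Agent.CZS

/-- For every finite abelian group `G` and every regular Rees matrix, the Rees matrix semigroup
with zero is finitely based iff the nonzero entries of the matrix form a disjoint union of complete
bipartite graphs or its cross-ratios have the same exponent as `G`. -/
theorem result (G I L : Type) [AddCommGroup G] [Finite G] [Finite I] [Finite L] [Nonempty L]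
    (A : L → I → Prop) (p : L → I → G) (hrow : ∀ l, ∃ i, A l i) (hcol : ∀ i, ∃ l, A l i) :
    FB (rmul A p) ↔ K1 A ∨ K3 A p := by
  obtain ⟨l0⟩ := (inferInstance : Nonempty L)
  exact FB_iff hrow hcol l0

end Pool.Agent.Results.MP_370e98_al.Criterion
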