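import Pool.Agent.CZS.Two

/-!
# Finite basability of completely 0-simple semigroups over the two-element group is decidable

The definitions are in `Pool.Agent.CZS.Defs` (words, identities, finite basis) and
`Pool.Agent.CZS.Two`.
-/

set_option autoImplicit false

namespace Pool.Agent.Results.MP_370e98_al.TwoElementGroup

open Pool.Agent.CZS

/-- Some algorithm decides, given the Cayley table of a finite semigroup, whether it is
completely 0-simple over the two-element group and finitely based. -/
theorem result :
    ∃ P : ℕ × List (List ℕ) → Prop, ComputablePred P ∧
      ∀ (n : ℕ) (op : Fin n → Fin n → Fin n),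
        (∀ a b c : Fin n, op (op a b) c = op a (op b c)) →
        (P (n, List.ofFn (fun i : Fin n => List.ofFn (fun j : Fin n => ((op i j : Fin n) : ℕ)))) ↔
          (∃ z : Fin n, CompletelyZeroSimple op z ∧
            ∀ e, e ≠ z → op e e = e → (maxSubgroup op z e).ncard = 2) ∧ FB op) :=
  two_decidable

end Pool.Agent.Results.MP_370e98_al.TwoElementGroup
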